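import Pool.Agent.Q118.Multipartite
set_option autoImplicit false
open Finset

/-!
Sidorenko's inequality for all Turán graphs and, more generally, for all complete multipartite
graphs.
-/

namespace Pool.Agent.Results.MP_1de1cd_co.CompleteMultipartite

open Pool.Agent.Q118.Multipartite

/-- Every graph on `n` vertices contains a triangle or has a complement containing `G`. -/
def Forces {V : Type} (G : SimpleGraph V) (n : ℕ) : Prop :=
  ∀ H : SimpleGraph (Fin n), ¬ H.CliqueFree 3 ∨ G.IsContained Hᶜ

/-- The Ramsey number `R(3, G)`. -/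
noncomputable def ramsey3 {V : Type} (G : SimpleGraph V) : ℕ := sInf {n | Forces G n}

theorem forces_multipartite {k : ℕ} (G : SimpleGraph (Fin k)) (hG : G.IsCompleteMultipartite) :
    Forces G (k + G.edgeSet.ncard) := by
  classical
  intro H
  by_cases hH : H.CliqueFree 3
  · right
    rcases Nat.eq_zero_or_pos k with rfl | hk
    · exact ⟨⟨⟨fun v => v.elim0, fun {a} => a.elim0⟩, fun a => a.elim0⟩⟩
    have : Nonempty (Fin (k + G.edgeSet.ncard)) := ⟨⟨0, by omega⟩⟩
    have hm : ∑ v ∈ (univ : Finset (Fin k)), ((univ : Finset (Fin k)).filter (G.Adj v)).card =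
        2 * G.edgeSet.ncard := by
      have h1 := G.sum_degrees_eq_twice_card_edges
      have h2 : G.edgeSet.ncard = G.edgeFinset.card := by
        rw [← SimpleGraph.coe_edgeFinset, Set.ncard_coe_finset]
      rw [h2, ← h1]
      refine sum_congr rfl fun v _ => ?_
      rw [← SimpleGraph.card_neighborFinset_eq_degree]
      congr 1
      ext u
      simp
    obtain ⟨f, hf1, -, hf3⟩ := main G hG H hH k univ (by simp) _ hm univ (by simp)
    have hinj : Function.Injective f := fun a b hab => hf1 (by simp) (by simp) hab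
    refine ⟨⟨⟨f, fun {a b} hab => ?_⟩, hinj⟩⟩
    rw [SimpleGraph.compl_adj]
    exact ⟨fun h => hab.ne (hinj h), hf3 a (mem_univ _) b (mem_univ _) hab⟩
  · exact Or.inl hH

theorem turan_multipartite (k w : ℕ) : (SimpleGraph.turanGraph k w).IsCompleteMultipartite := by
  refine ⟨fun a b c h1 h2 => ?_⟩
  rw [SimpleGraph.turanGraph_adj, not_not] at h1 h2 ⊢
  exact h1.trans h2

/-- Sidorenko's inequality `R(3,G) ≤ k + m` holds for every complete multipartite graph `G` with `k`
vertices and `m` edges; in particular for every Turán graph `T(k,w)`, `2 ≤ w ≤ k`. -/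
theorem result :
    (∀ k w : ℕ, 2 ≤ w → w ≤ k →
      ramsey3 (SimpleGraph.turanGraph k w) ≤ k + (SimpleGraph.turanGraph k w).edgeSet.ncard) ∧
    (∀ (k : ℕ) (G : SimpleGraph (Fin k)), G.IsCompleteMultipartite →
      Forces G (k + G.edgeSet.ncard) ∧ ramsey3 G ≤ k + G.edgeSet.ncard) := by
  have h : ∀ (k : ℕ) (G : SimpleGraph (Fin k)), G.IsCompleteMultipartite →
      Forces G (k + G.edgeSet.ncard) ∧ ramsey3 G ≤ k + G.edgeSet.ncard := fun k G hG =>
    ⟨forces_multipartite G hG, Nat.sInf_le (forces_multipartite G hG)⟩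
  exact ⟨fun k w _ _ => (h k _ (turan_multipartite k w)).2, h⟩

end Pool.Agent.Results.MP_1de1cd_co.CompleteMultipartite
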